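import Pool.Agent.H.MP_9a81ba_al.P.Full

set_option autoImplicit false

/-!
For every `g ≥ 2` the mapping class group of the closed orientable surface of genus `g` has a
finitely presented subgroup (a free group of finite rank) with undecidable membership problem.
-/

namespace Pool.Agent.Results.MP_9a81ba_al.AllGenera

open Pool.Agent.H.MP_9a81ba_al Pool.Agent.H.MP_9a81ba_al.P

/-- For every `g ≥ 2` there is a subgroup `H` of the mapping class group `ModG g` which is free of
finite rank, in particular finitely presented, and whose generalized word problem is not
solvable: for some finite tuple `s` of mapping classes, and for every finite tuple `s` which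
generates `ModG g`, the set of words over `s` which represent elements of `H` is not
computable. -/
theorem result (g : ℕ) (hg : 2 ≤ g) :
    ∃ H : Subgroup (ModG g), (∃ n : ℕ, Nonempty (H ≃* FreeGroup (Fin n))) ∧
      Group.IsFinitelyPresented H ∧
      (∃ (k : ℕ) (s : Fin k → ModG g), ¬ GWPSolvable s H) ∧
      ∀ (k : ℕ) (s : Fin k → ModG g), Subgroup.closure (Set.range s) = ⊤ →
        ¬ GWPSolvable s H :=
  short_all g hg

end Pool.Agent.Results.MP_9a81ba_al.AllGenera
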